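import Mathlib

set_option autoImplicit false

namespace Pool.Agent.Results.MP_6750b5_co.NotNested
open Finset
open scoped Classical

/-- the 0/1 weight function of a graph -/
noncomputable def om {n : ℕ} (G : SimpleGraph (Fin n)) (a b : Fin n) : ℝ := if G.Adj a b then 1 else 0

/-- the multinomial coefficient `k! / (m₁! ⋯ mₙ!)` of a tuple -/
noncomputable def mult {n k : ℕ} (i : Fin k → Fin n) : ℝ :=
  (k.factorial : ℝ) / ∏ l : Fin n, (((univ.filter fun t => i t = l).card).factorial : ℝ)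

/-- the set of all rearrangements of a tuple -/
noncomputable def orb {n k : ℕ} (i : Fin k → Fin n) : Finset (Fin k → Fin n) :=
  univ.filter fun p => ∃ s : Equiv.Perm (Fin k), p = i ∘ s

/-- the vertices of the `k`-th symmetric tensor power: nondecreasing tuples -/
def Vert (n k : ℕ) : Type := {i : Fin k → Fin n // Monotone i}

/-- the edge weights of the `k`-th symmetric tensor power -/
noncomputable def wt {n : ℕ} (G : SimpleGraph (Fin n)) (k : ℕ) (i j : Vert n k) : ℝ :=
  (Real.sqrt (mult i.1 * mult j.1))⁻¹ * ∑ p ∈ orb i.1, ∑ q ∈ orb j.1, ∏ l, om G (p l) (q l)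

theorem om_nonneg {n : ℕ} (G : SimpleGraph (Fin n)) (a b : Fin n) : 0 ≤ om G a b := by
  unfold om; split_ifs <;> norm_num

theorem mult_pos {n k : ℕ} (i : Fin k → Fin n) : 0 < mult i := by
  unfold mult; positivity

def star : SimpleGraph (Fin 4) where
  Adj a b := (a = 0 ∧ b ≠ 0) ∨ (b = 0 ∧ a ≠ 0)
  symm := ⟨fun _ _ h => h.symm⟩
  loopless := ⟨fun _ h => by tauto⟩

def cnt (p : Fin 3 → Fin 4) : ℕ :=
  (if p 0 = 0 then 1 else 0) + (if p 1 = 0 then 1 else 0) + (if p 2 = 0 then 1 else 0)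

theorem bip (a b : Vert 4 3) (h : 0 < wt star 3 a b) : cnt a.1 + cnt b.1 = 3 := by
  by_contra hc
  apply h.ne'
  unfold wt
  rw [Finset.sum_eq_zero, mul_zero]
  intro p hp
  apply Finset.sum_eq_zero
  intro q hq
  obtain ⟨s, rfl⟩ := (Finset.mem_filter.1 hp).2
  obtain ⟨t, rfl⟩ := (Finset.mem_filter.1 hq).2
  have h1 : ∀ (j : Fin 3 → Fin 4) (s : Equiv.Perm (Fin 3)), cnt (j ∘ s) = cnt j := by
    decide +kernel
  have h2 : ∀ p q : Fin 3 → Fin 4, cnt p + cnt q ≠ 3 →
      ∃ l, ¬ ((p l = 0 ∧ q l ≠ 0) ∨ (q l = 0 ∧ p l ≠ 0)) := by decide +kernel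
  obtain ⟨l, hl⟩ := h2 (a.1 ∘ s) (b.1 ∘ t) (by rwa [h1, h1])
  exact Finset.prod_eq_zero (Finset.mem_univ l) (if_neg hl)

def vv (x : Fin 4) : Vert 4 2 := ⟨![0, x], by
  intro a b h
  fin_cases a <;> fin_cases b <;> simp_all⟩

theorem pos (x y : Fin 4) (hx : x ≠ 0) (hy : y ≠ 0) : 0 < wt star 2 (vv x) (vv y) := by
  unfold wt
  apply mul_pos
  · have := mult_pos (vv x).1
    have := mult_pos (vv y).1
    positivity
  · apply Finset.sum_pos'
    · exact fun p _ => Finset.sum_nonneg fun q _ => Finset.prod_nonneg fun l _ => om_nonneg _ _ _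
    refine ⟨(vv x).1, by
      simp only [orb, Finset.mem_filter, Finset.mem_univ, true_and]; exact ⟨1, rfl⟩, ?_⟩
    apply Finset.sum_pos'
    · exact fun q _ => Finset.prod_nonneg fun l _ => om_nonneg _ _ _
    refine ⟨(vv y).1 ∘ Equiv.swap 0 1, by
      simp only [orb, Finset.mem_filter, Finset.mem_univ, true_and]
      exact ⟨Equiv.swap 0 1, rfl⟩, ?_⟩
    simp [om, Fin.prod_univ_two, vv, star, hx, hy]

/-- The powers are not nested, even if only weights between distinct vertices are compared. -/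
theorem result : ∃ (n : ℕ) (G : SimpleGraph (Fin n)) (k r : ℕ), 1 ≤ k ∧ k < r ∧
    ¬ ∃ φ : Vert n k → Vert n r, ∀ i j, i ≠ j → wt G k i j ≤ wt G r (φ i) (φ j) := by
  refine ⟨4, star, 2, 3, by norm_num, by norm_num, ?_⟩
  rintro ⟨φ, h⟩
  have key : ∀ x y : Fin 4, x ≠ 0 → y ≠ 0 → x ≠ y → cnt (φ (vv x)).1 + cnt (φ (vv y)).1 = 3 := by
    intro x y hx hy hxy
    refine bip _ _ ((pos x y hx hy).trans_le (h _ _ fun e => hxy ?_))
    exact congrFun (congrArg Subtype.val e) 1
  have h1 := key 1 2 (by decide) (by decide) (by decide)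
  have h2 := key 1 3 (by decide) (by decide) (by decide)
  have h3 := key 2 3 (by decide) (by decide) (by decide)
  omega

end Pool.Agent.Results.MP_6750b5_co.NotNested
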